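import Pool.Agent.H46.EXC.Stmts

/-!
# Row ENY of the board `exc`: one scale, known exponents
-/

set_option autoImplicit false

namespace Pool.EXC

open Finset Pool.Agent.H98.ABCR Pool.SHA Pool.ABY Pool.VIO

namespace ENYaux

/-! ### Coordinates -/

lemma coord_pos {v : ℕ × ℕ} (hv : IsTri v) (s : Fin 3) : 0 < coord v s := by
  obtain ⟨h1, h2, _⟩ := hv
  fin_cases s
  · exact h1
  · exact h2
  · change 0 < v.1 + v.2
    omega

lemma coord_dvd_nn (v : ℕ × ℕ) (s : Fin 3) : coord v s ∣ nn v := by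
  fin_cases s
  · exact (Dvd.intro _ rfl : v.1 ∣ v.1 * v.2).trans (Dvd.intro _ rfl)
  · exact (Dvd.intro_left _ rfl : v.2 ∣ v.1 * v.2).trans (Dvd.intro _ rfl)
  · exact (Dvd.intro_left _ rfl : v.1 + v.2 ∣ v.1 * v.2 * (v.1 + v.2))

lemma nn_pos {v : ℕ × ℕ} (hv : IsTri v) : 0 < nn v := by
  obtain ⟨h1, h2, _⟩ := hv
  unfold nn
  positivity

lemma coord_le (v : ℕ × ℕ) (s : Fin 3) : coord v s ≤ v.1 + v.2 := by
  fin_cases s
  · change v.1 ≤ _
    omega
  · change v.2 ≤ _
    omega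
  · exact le_rfl

lemma coord_cop {v : ℕ × ℕ} (hv : IsTri v) {s i : Fin 3} (h : s ≠ i) :
    (coord v s).Coprime (coord v i) := by
  obtain ⟨_, _, h3⟩ := hv
  have c01 : v.1.Coprime v.2 := h3
  have c02 : v.1.Coprime (v.1 + v.2) := by
    rw [Nat.coprime_self_add_right]; exact h3
  have c12 : v.2.Coprime (v.1 + v.2) := by
    rw [Nat.coprime_add_self_right]; exact h3.symm
  fin_cases s <;> fin_cases i
  · exact absurd rfl h
  · exact c01
  · exact c02
  · exact c01.symm
  · exact absurd rfl h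
  · exact c12
  · exact c02.symm
  · exact c12.symm
  · exact absurd rfl h

lemma rel_mod {v v' : ℕ × ℕ} {q : ℕ} {i j k : Fin 3} (hij : j ≠ i) (hik : k ≠ i) (hjk : j ≠ k)
    (h : q ∣ coord v i) (h' : q ∣ coord v' i) :
    ((coord v j : ZMod q) * coord v' k) = coord v' j * coord v k := by
  have e : ((coord v i : ℕ) : ZMod q) = 0 := (ZMod.natCast_eq_zero_iff _ _).2 h
  have e' : ((coord v' i : ℕ) : ZMod q) = 0 := (ZMod.natCast_eq_zero_iff _ _).2 h'
  have z0 : ∀ w : ℕ × ℕ, ((coord w 0 : ℕ) : ZMod q) = (w.1 : ZMod q) := fun w => rfl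
  have z1 : ∀ w : ℕ × ℕ, ((coord w 1 : ℕ) : ZMod q) = (w.2 : ZMod q) := fun w => rfl
  have z2 : ∀ w : ℕ × ℕ, ((coord w 2 : ℕ) : ZMod q) = (w.1 : ZMod q) + w.2 := fun w => by
    change ((w.1 + w.2 : ℕ) : ZMod q) = _
    push_cast
    rfl
  have three : ∀ x : Fin 3, x = 0 ∨ x = 1 ∨ x = 2 := by decide
  rcases three i with rfl | rfl | rfl <;> rcases three j with rfl | rfl | rfl <;>
    rcases three k with rfl | rfl | rfl <;>
    first
    | exact absurd rfl hij
    | exact absurd rfl hik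
    | exact absurd rfl hjk
    | (simp only [z0, z1, z2] at e e' ⊢
       first
       | linear_combination (v.2 : ZMod q) * e' - (v'.2 : ZMod q) * e
       | linear_combination (v'.2 : ZMod q) * e - (v.2 : ZMod q) * e'
       | linear_combination (v.1 : ZMod q) * e' - (v'.1 : ZMod q) * e
       | linear_combination (v'.1 : ZMod q) * e - (v.1 : ZMod q) * e')

/-! ### Radicals and logarithms -/

lemma rad_pos (n : ℕ) : 0 < rad n :=
  Finset.prod_pos fun _ hp => (Nat.prime_of_mem_primeFactors hp).pos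

lemma rad_dvd_of {m n : ℕ} (h : m.primeFactors ⊆ n.primeFactors) : rad m ∣ rad n :=
  Finset.prod_dvd_prod_of_subset _ _ _ h

lemma rad_coord_le {v : ℕ × ℕ} (hv : IsTri v) (s : Fin 3) : rad (coord v s) ≤ RR v :=
  Nat.le_of_dvd (rad_pos _) (rad_dvd_of (Nat.primeFactors_mono (coord_dvd_nn v s) (nn_pos hv).ne'))

lemma self_eq {m : ℕ} (hm : 0 < m) : ∏ p ∈ m.primeFactors, p ^ m.factorization p = m := by
  conv_rhs => rw [← Nat.prod_factorization_pow_eq_self hm.ne']
  rfl

lemma log_eq {m : ℕ} (hm : 0 < m) :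
    Real.log m = ∑ p ∈ m.primeFactors, (m.factorization p : ℝ) * Real.log p := by
  conv_lhs => rw [← self_eq hm]
  push_cast
  rw [Real.log_prod]
  · refine Finset.sum_congr rfl fun p _ => ?_
    rw [Real.log_pow]
  · intro p hp
    have := (Nat.prime_of_mem_primeFactors hp).pos
    positivity

lemma log_rad (m : ℕ) : Real.log (rad m) = ∑ p ∈ m.primeFactors, Real.log p := by
  unfold rad
  push_cast
  rw [Real.log_prod]
  intro p hp
  have := (Nat.prime_of_mem_primeFactors hp).pos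
  positivity

lemma mem_Cls {q : ℕ} {Z : ℝ} {E : Finset ℕ} {n : ℕ} (h0 : 0 < n) (hc : n.Coprime q)
    (hr : (rad n : ℝ) ≤ Z) (hE : ∀ p ∈ n.primeFactors, n.factorization p ∈ E) :
    n ∈ Cls q Z E := by
  unfold Cls
  rw [mem_filter, mem_range]
  refine ⟨?_, h0, hc, hr, hE⟩
  have h1 : rad n ≤ ⌊Z⌋₊ := Nat.le_floor hr
  have h2 : n ≤ rad n ^ (E.sup id) := by
    calc n = ∏ p ∈ n.primeFactors, p ^ n.factorization p := (self_eq h0).symm
      _ ≤ ∏ p ∈ n.primeFactors, p ^ (E.sup id) := Finset.prod_le_prod' fun p hp =>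
          Nat.pow_le_pow_right (Nat.prime_of_mem_primeFactors hp).pos
            (Finset.le_sup (f := id) (hE p hp))
      _ = rad n ^ (E.sup id) := by unfold rad; rw [Finset.prod_pow]
  exact Nat.lt_succ_of_le (h2.trans (Nat.pow_le_pow_left h1 _))

/-! ### The units -/

lemma un_coe {q n : ℕ} (h : n.Coprime q) : ((un q n : (ZMod q)ˣ) : ZMod q) = n := by
  unfold un
  rw [dif_pos h]
  exact ZMod.coe_unitOfCoprime n h

lemma un_prod {q n : ℕ} {y : Fin n → ℕ} (h : ∀ k, (y k).Coprime q) :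
    ((∏ k, un q (y k) : (ZMod q)ˣ) : ZMod q) = ((∏ k, y k : ℕ) : ZMod q) := by
  rw [Units.coe_prod]
  push_cast
  exact Finset.prod_congr rfl fun k _ => un_coe (h k)

/-- the relation between two edges with a common end -/
lemma key {q n : ℕ} {ρ : ℝ} {y y' : Fin n → ℕ} (hy : ∀ k, (y k).Coprime q)
    (hy' : ∀ k, (y' k).Coprime q) {Hj Hj' Hk Hk' Pj Pj' Pk Pk' rj rj' rk rk' Yk : ℕ}
    (cHj : Hj'.Coprime q) (cHk : Hk.Coprime q) (cY : Yk.Coprime q)
    (c1 : Pj.Coprime q) (c2 : Pj'.Coprime q) (c3 : Pk.Coprime q) (c4 : Pk'.Coprime q)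
    (c5 : rj.Coprime q) (c6 : rj'.Coprime q) (c7 : rk.Coprime q) (c8 : rk'.Coprime q)
    (p1 : 0 < Pj) (p2 : 0 < Pj') (p3 : 0 < Pk) (p4 : 0 < Pk')
    (p5 : 0 < rj) (p6 : 0 < rj') (p7 : 0 < rk) (p8 : 0 < rk')
    (H1 : ((Hj * (∏ k, y k) * rj : ℕ) : ZMod q) * ((Hk' * Yk * rk' : ℕ) : ZMod q) =
      ((Hj' * (∏ k, y' k) * rj' : ℕ) : ZMod q) * ((Hk * Yk * rk : ℕ) : ZMod q))
    (H2 : Pj' * Hj = Pj * Hj') (H3 : Pk' * Hk = Pk * Hk')
    (L1 : Real.log Pj' + Real.log rj' + Real.log Pk + Real.log rk ≤ ρ)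
    (L2 : Real.log Pj + Real.log rj + Real.log Pk' + Real.log rk' ≤ ρ) :
    (∏ k, un q (y k)) * (∏ k, un q (y' k))⁻¹ ∈ Sml q ρ := by
  have cN : (Pj' * rj' * Pk * rk).Coprime q :=
    Nat.Coprime.mul_left (Nat.Coprime.mul_left (Nat.Coprime.mul_left c2 c6) c3) c7
  have cD : (Pj * rj * Pk' * rk').Coprime q :=
    Nat.Coprime.mul_left (Nat.Coprime.mul_left (Nat.Coprime.mul_left c1 c5) c4) c8
  have hlog : ∀ a b c d : ℕ, 0 < a → 0 < b → 0 < c → 0 < d →
      Real.log ((a * b * c * d : ℕ) : ℝ) = Real.log a + Real.log b + Real.log c + Real.log d := by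
    intro a b c d ha hb hc hd
    push_cast
    rw [Real.log_mul (by positivity) (by positivity), Real.log_mul (by positivity) (by positivity),
      Real.log_mul (by positivity) (by positivity)]
  refine ⟨Pj' * rj' * Pk * rk, Pj * rj * Pk' * rk', by positivity, by positivity, cN, cD, ?_, ?_,
    ?_⟩
  · rw [hlog _ _ _ _ p2 p6 p3 p7]; exact L1
  · rw [hlog _ _ _ _ p1 p5 p4 p8]; exact L2
  · rw [← div_eq_mul_inv, ← div_eq_mul_inv, div_eq_div_iff_mul_eq_mul]
    apply mul_right_cancel (b := un q Hj' * un q Hk * un q Yk)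
    apply Units.ext
    have H2' : (Pj' : ZMod q) * Hj = Pj * Hj' := by exact_mod_cast congrArg (Nat.cast : ℕ → ZMod q) H2
    have H3' : (Pk' : ZMod q) * Hk = Pk * Hk' := by exact_mod_cast congrArg (Nat.cast : ℕ → ZMod q) H3
    simp only [Units.val_mul]
    rw [un_prod hy, un_prod hy', un_coe cN, un_coe cD, un_coe cHj, un_coe cHk, un_coe cY]
    push_cast at H1 ⊢
    linear_combination ((Pj' : ZMod q) * Pk) * H1 -
      ((∏ k, (y k : ZMod q)) * rj * rk' * Yk * Hk * Pk') * H2' +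
      ((∏ k, (y k : ZMod q)) * rj * rk' * Yk * Hj * Pj') * H3'

/-! ### The known primes -/

/-- part of the difference of the exponents -/
def dif (H : Finset ℕ) (m m' : ℕ) : ℕ := ∏ p ∈ H, p ^ (m.factorization p - m'.factorization p)

lemma dif_pos {H : Finset ℕ} (hH : ∀ p ∈ H, p.Prime) (m m' : ℕ) : 0 < dif H m m' :=
  Finset.prod_pos fun p hp => pow_pos (hH p hp).pos _

lemma dif_mul (H : Finset ℕ) (m m' : ℕ) :
    dif H m' m * (∏ p ∈ H, p ^ m.factorization p) =
      dif H m m' * (∏ p ∈ H, p ^ m'.factorization p) := by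
  unfold dif
  rw [← Finset.prod_mul_distrib, ← Finset.prod_mul_distrib]
  refine Finset.prod_congr rfl fun p _ => ?_
  rw [← pow_add, ← pow_add, Nat.sub_add_eq_max, Nat.sub_add_eq_max, max_comm]

lemma dif_cop {H : Finset ℕ} {q m m' : ℕ} (hH : ∀ p ∈ H, p.Coprime q) : (dif H m m').Coprime q :=
  Nat.Coprime.prod_left fun p hp => Nat.Coprime.pow_left _ (hH p hp)

lemma log_dif {H : Finset ℕ} (hH : ∀ p ∈ H, p.Prime) (m m' : ℕ) :
    Real.log (dif H m m') ≤ ∑ p ∈ H,
      |(m.factorization p : ℝ) - m'.factorization p| * Real.log p := by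
  unfold dif
  push_cast
  rw [Real.log_prod]
  · refine Finset.sum_le_sum fun p hp => ?_
    rw [Real.log_pow]
    have h1 : (0 : ℝ) ≤ Real.log p := Real.log_natCast_nonneg p
    refine mul_le_mul_of_nonneg_right ?_ h1
    rcases le_total (m'.factorization p) (m.factorization p) with h | h
    · rw [Nat.cast_sub h]
      exact le_abs_self _
    · rw [Nat.sub_eq_zero_of_le h]
      simp
  · intro p hp
    have := (hH p hp).pos
    positivity


/-! ### Masses -/

lemma kl_i {v : ℕ × ℕ} {T K : Finset ℕ} {x : ℕ → ℕ} {i : Fin 3} (hv : IsTri v)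
    (hT : ∀ t ∈ T, t.Prime ∧ 1 ≤ x t) (hd : ∀ t ∈ T, t ^ x t ∣ coord v i) (hTK : T ⊆ K) :
    ∑ t ∈ T, (x t : ℝ) * Real.log t ≤ kl K (coord v i) := by
  unfold kl
  calc ∑ t ∈ T, (x t : ℝ) * Real.log t
      ≤ ∑ t ∈ T, ((coord v i).factorization t : ℝ) * Real.log t := by
        refine Finset.sum_le_sum fun t ht => ?_
        refine mul_le_mul_of_nonneg_right ?_ (Real.log_natCast_nonneg t)
        exact_mod_cast ((hT t ht).1.pow_dvd_iff_le_factorization (coord_pos hv i).ne').1 (hd t ht)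
    _ ≤ _ := Finset.sum_le_sum_of_subset_of_nonneg hTK fun t _ _ =>
        mul_nonneg (Nat.cast_nonneg _) (Real.log_natCast_nonneg t)

lemma kl_s {m : ℕ} (hm : 0 < m) {K : Finset ℕ} {b : ℝ} (hb : 0 ≤ b)
    (h : ∀ p ∈ m.primeFactors, p ∉ K → (m.factorization p : ℝ) ≤ b) :
    Real.log m - b * Real.log (rad m) ≤ kl K m := by
  have h1 : Real.log m ≤ kl K m + b * Real.log (rad m) := by
    rw [log_eq hm, log_rad, Finset.mul_sum,
      ← Finset.sum_filter_add_sum_filter_not m.primeFactors (fun p => p ∈ K)]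
    refine add_le_add ?_ ?_
    · unfold kl
      refine Finset.sum_le_sum_of_subset_of_nonneg ?_ fun t _ _ =>
        mul_nonneg (Nat.cast_nonneg _) (Real.log_natCast_nonneg t)
      intro p hp
      exact (mem_filter.1 hp).2
    · calc ∑ p ∈ m.primeFactors with p ∉ K, (m.factorization p : ℝ) * Real.log p
          ≤ ∑ p ∈ m.primeFactors with p ∉ K, b * Real.log p := by
            refine Finset.sum_le_sum fun p hp => ?_
            exact mul_le_mul_of_nonneg_right (h p (mem_filter.1 hp).1 (mem_filter.1 hp).2)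
              (Real.log_natCast_nonneg p)
        _ ≤ _ := Finset.sum_le_sum_of_subset_of_nonneg (filter_subset _ _) fun t _ _ =>
            mul_nonneg hb (Real.log_natCast_nonneg t)
  linarith

lemma prod_pow_dvd {T : Finset ℕ} {x : ℕ → ℕ} {m : ℕ} (hT : ∀ t ∈ T, t.Prime ∧ 1 ≤ x t)
    (hd : ∀ t ∈ T, t ^ x t ∣ m) : ∏ t ∈ T, t ^ x t ∣ m := by
  refine Finset.prod_dvd_of_isRelPrime ?_ hd
  intro a ha b hb hab
  exact Nat.coprime_iff_isRelPrime.1
    (Nat.Coprime.pow _ _ ((Nat.coprime_primes (hT a ha).1 (hT b hb).1).2 hab))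

lemma two_of (i : Fin 3) : ∃ j k : Fin 3, j ≠ i ∧ k ≠ i ∧ j ≠ k ∧
    (univ.erase i : Finset (Fin 3)) = {j, k} ∧ ∀ s, s ≠ i → s = j ∨ s = k := by
  revert i
  decide

/-! ### Decompositions -/

/-- the decomposition of `m` of the row DCM -/
structure Dc {n : ℕ} (E : Fin n → Finset ℕ) (H : Finset ℕ) (lam g : ℝ) (m : ℕ)
    (y : Fin n → ℕ) (r : ℕ) : Prop where
  r0 : 0 < r
  eq : m = (∏ p ∈ H, p ^ m.factorization p) * (∏ k, y k) * r
  yE : ∀ k, 0 < y k ∧ ∀ p ∈ (y k).primeFactors, (y k).factorization p ∈ E k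
  sub : ∀ k, (y k).primeFactors ⊆ m.primeFactors \ H
  rd : ∏ k, rad (y k) ≤ rad m
  lr : Real.log r ≤ (lam + 2 * lam) * g * Real.log (rad m)
  rest : ∀ p ∈ m.primeFactors, p ∉ H → (∀ k, p ∉ (y k).primeFactors) →
    (m.factorization p : ℝ) ≤ lam * g

lemma Dc.rad_le {n : ℕ} {E : Fin n → Finset ℕ} {H : Finset ℕ} {lam g : ℝ} {m : ℕ}
    {y : Fin n → ℕ} {r : ℕ} (h : Dc E H lam g m y r) (k : Fin n) : rad (y k) ≤ rad m := by
  refine le_trans ?_ h.rd
  exact Finset.single_le_prod' (f := fun k => rad (y k)) (fun l _ => rad_pos _) (mem_univ k)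

/-- the relation between two triples with the same part of the coordinate `k` -/
lemma edge {n : ℕ} {E : Fin n → Finset ℕ} {X h0 lam Λ C0 g : ℝ} {T : Finset ℕ} {x : ℕ → ℕ}
    {H : Fin 3 → Finset ℕ} {i j k : Fin 3} {v v' : ℕ × ℕ} (hij : j ≠ i) (hik : k ≠ i)
    (hjk : j ≠ k) (hT : ∀ t ∈ T, t.Prime ∧ 1 ≤ x t)
    (hv : FamE X h0 lam Λ C0 T x H i v) (hv' : FamE X h0 lam Λ C0 T x H i v')
    (hlam : 0 ≤ lam) (hg : 0 ≤ g) (hgX : g * Real.log X = h0)
    {y y' z : Fin n → ℕ} {rj rj' rk rk' : ℕ}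
    (dj : Dc E (H j) lam g (coord v j) y rj) (dj' : Dc E (H j) lam g (coord v' j) y' rj')
    (dk : Dc E (H k) lam g (coord v k) z rk) (dk' : Dc E (H k) lam g (coord v' k) z rk')
    (hdf : ∀ w w' : ℕ × ℕ, (w = v ∨ w = v') → (w' = v ∨ w' = v') → ∀ s, s ≠ i → ∑ p ∈ H s,
      |((coord w s).factorization p : ℝ) - (coord w' s).factorization p| * Real.log p ≤
        lam * h0) :
    (∏ l, un (∏ t ∈ T, t ^ x t) (y l)) * (∏ l, un (∏ t ∈ T, t ^ x t) (y' l))⁻¹ ∈
      Sml (∏ t ∈ T, t ^ x t) (8 * lam * h0) := by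
  set q := ∏ t ∈ T, t ^ x t with hq
  have hqv : q ∣ coord v i := prod_pow_dvd hT hv.dT
  have hqv' : q ∣ coord v' i := prod_pow_dvd hT hv'.dT
  have cop : ∀ {w : ℕ × ℕ} {s : Fin 3} {d : ℕ}, FamE X h0 lam Λ C0 T x H i w → s ≠ i →
      d ∣ coord w s → d.Coprime q := by
    intro w s d hw hs hd
    exact Nat.Coprime.coprime_dvd_left hd
      (Nat.Coprime.coprime_dvd_right (prod_pow_dvd hT hw.dT) (coord_cop hw.tri hs))
  have pr : ∀ s, s ≠ i → ∀ p ∈ H s, p.Prime := fun s hs p hp =>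
    Nat.prime_of_mem_primeFactors (hv.sH s hs hp)
  have cpr : ∀ s, s ≠ i → ∀ p ∈ H s, p.Coprime q := fun s hs p hp =>
    cop hv hs (Nat.dvd_of_mem_primeFactors (hv.sH s hs hp))
  -- the factors
  have f1 : ∀ {w : ℕ × ℕ} {s : Fin 3} {u : Fin n → ℕ} {r : ℕ},
      Dc E (H s) lam g (coord w s) u r → (∏ p ∈ H s, p ^ (coord w s).factorization p) ∣ coord w s :=
    fun d => by
      conv_rhs => rw [d.eq]
      exact (Dvd.intro _ rfl : _ ∣ _ * _).trans (Dvd.intro _ rfl)
  have f2 : ∀ {w : ℕ × ℕ} {s : Fin 3} {u : Fin n → ℕ} {r : ℕ},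
      Dc E (H s) lam g (coord w s) u r → (∏ l, u l) ∣ coord w s :=
    fun d => by
      conv_rhs => rw [d.eq]
      exact (Dvd.intro_left _ rfl : _ ∣ _ * _).trans (Dvd.intro _ rfl)
  have f3 : ∀ {w : ℕ × ℕ} {s : Fin 3} {u : Fin n → ℕ} {r : ℕ},
      Dc E (H s) lam g (coord w s) u r → r ∣ coord w s :=
    fun d => by
      conv_rhs => rw [d.eq]
      exact Dvd.intro_left _ rfl
  have f4 : ∀ {w : ℕ × ℕ} {s : Fin 3} {u : Fin n → ℕ} {r : ℕ},
      Dc E (H s) lam g (coord w s) u r → ∀ l, u l ∣ coord w s :=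
    fun d l => (Finset.dvd_prod_of_mem _ (mem_univ l)).trans (f2 d)
  -- logarithms
  have lr : ∀ {w : ℕ × ℕ} {s : Fin 3} {u : Fin n → ℕ} {r : ℕ},
      FamE X h0 lam Λ C0 T x H i w → Dc E (H s) lam g (coord w s) u r →
      Real.log r ≤ 3 * lam * h0 := by
    intro w s u r hw d
    have h1 : Real.log (rad (coord w s)) ≤ Real.log X := by
      apply Real.log_le_log
      · exact_mod_cast rad_pos _
      · exact le_trans (by exact_mod_cast rad_coord_le hw.tri s) hw.rad
    calc Real.log r ≤ (lam + 2 * lam) * g * Real.log (rad (coord w s)) := d.lr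
      _ ≤ (lam + 2 * lam) * g * Real.log X := mul_le_mul_of_nonneg_left h1 (by positivity)
      _ = 3 * lam * (g * Real.log X) := by ring
      _ = 3 * lam * h0 := by rw [hgX]
  have ld : ∀ w w' : ℕ × ℕ, (w = v ∨ w = v') → (w' = v ∨ w' = v') → ∀ s, s ≠ i →
      Real.log (dif (H s) (coord w s) (coord w' s)) ≤ lam * h0 := fun w w' hw hw' s hs =>
    (log_dif (pr s hs) _ _).trans (hdf w w' hw hw' s hs)
  have r1 := lr hv dj
  have r2 := lr hv' dj'
  have r3 := lr hv dk
  have r4 := lr hv' dk'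
  have l1 := ld v v' (Or.inl rfl) (Or.inr rfl) j hij
  have l2 := ld v' v (Or.inr rfl) (Or.inl rfl) j hij
  have l3 := ld v v' (Or.inl rfl) (Or.inr rfl) k hik
  have l4 := ld v' v (Or.inr rfl) (Or.inl rfl) k hik
  refine key (q := q) (y := y) (y' := y')
    (Hj := ∏ p ∈ H j, p ^ (coord v j).factorization p)
    (Hj' := ∏ p ∈ H j, p ^ (coord v' j).factorization p)
    (Hk := ∏ p ∈ H k, p ^ (coord v k).factorization p)
    (Hk' := ∏ p ∈ H k, p ^ (coord v' k).factorization p)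
    (Pj := dif (H j) (coord v j) (coord v' j)) (Pj' := dif (H j) (coord v' j) (coord v j))
    (Pk := dif (H k) (coord v k) (coord v' k)) (Pk' := dif (H k) (coord v' k) (coord v k))
    (rj := rj) (rj' := rj') (rk := rk) (rk' := rk') (Yk := ∏ l, z l)
    (fun l => cop hv hij (f4 dj l)) (fun l => cop hv' hij (f4 dj' l))
    (cop hv' hij (f1 dj')) (cop hv hik (f1 dk)) (cop hv hik (f2 dk))
    (dif_cop (cpr j hij)) (dif_cop (cpr j hij)) (dif_cop (cpr k hik)) (dif_cop (cpr k hik))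
    (cop hv hij (f3 dj)) (cop hv' hij (f3 dj')) (cop hv hik (f3 dk)) (cop hv' hik (f3 dk'))
    (dif_pos (pr j hij) _ _) (dif_pos (pr j hij) _ _) (dif_pos (pr k hik) _ _)
    (dif_pos (pr k hik) _ _) dj.r0 dj'.r0 dk.r0 dk'.r0 ?_ ?_ ?_ ?_ ?_
  · rw [← dj.eq, ← dj'.eq, ← dk.eq, ← dk'.eq]
    exact rel_mod hij hik hjk hqv hqv'
  · exact dif_mul (H j) (coord v j) (coord v' j)
  · exact dif_mul (H k) (coord v k) (coord v' k)
  · linarith
  · linarith


/-- sizes of the radicals of the parts -/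
lemma size {X η : ℝ} (hX : 3 ≤ X) (hη : 0 < η) {N : ℕ} (hN : 0 < N) {a : ℕ}
    (ha : ⌊Real.log N / (η * Real.log X)⌋₊ = a) :
    (N : ℝ) ≤ X ^ (((a : ℝ) + 1) * η) ∧ X ^ ((a : ℝ) * η) ≤ N := by
  have hX0 : 0 < X := by linarith
  have hl : 0 < Real.log X := Real.log_pos (by linarith)
  have hN' : (0 : ℝ) < N := by exact_mod_cast hN
  have hN1 : (1 : ℝ) ≤ N := by exact_mod_cast hN
  have hd : 0 < η * Real.log X := by positivity
  have h1 : Real.log N / (η * Real.log X) < (a : ℝ) + 1 := by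
    rw [← ha]; exact Nat.lt_floor_add_one _
  have h2 : (a : ℝ) ≤ Real.log N / (η * Real.log X) := by
    rw [← ha]; exact Nat.floor_le (div_nonneg (Real.log_nonneg hN1) hd.le)
  rw [div_lt_iff₀ hd] at h1
  rw [le_div_iff₀ hd] at h2
  constructor
  · rw [Real.rpow_def_of_pos hX0]
    calc (N : ℝ) = Real.exp (Real.log N) := (Real.exp_log hN').symm
      _ ≤ _ := Real.exp_le_exp.2 (by nlinarith)
  · rw [Real.rpow_def_of_pos hX0]
    calc _ ≤ Real.exp (Real.log N) := Real.exp_le_exp.2 (by nlinarith)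
      _ = (N : ℝ) := Real.exp_log hN'

/-- products of the sizes -/
lemma prod_size {X η : ℝ} (hX : 3 ≤ X) {n : ℕ} {a : Fin n → ℕ} {N : Fin n → ℕ}
    (h : ∀ l, X ^ ((a l : ℝ) * η) ≤ N l) {m : ℕ} (hm : ∏ l, N l ≤ m) :
    ∏ l, X ^ (((a l : ℝ) + 1) * η) ≤ m * X ^ (n * η) := by
  have hX0 : 0 < X := by linarith
  calc ∏ l, X ^ (((a l : ℝ) + 1) * η) = ∏ l, (X ^ ((a l : ℝ) * η) * X ^ η) := by
        refine Finset.prod_congr rfl fun l _ => ?_
        rw [← Real.rpow_add hX0]
        congr 1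
        ring
    _ = (∏ l, X ^ ((a l : ℝ) * η)) * X ^ (n * η) := by
        rw [Finset.prod_mul_distrib, Finset.prod_const, Finset.card_univ, Fintype.card_fin,
          ← Real.rpow_natCast (X ^ η), ← Real.rpow_mul hX0.le, mul_comm η]
    _ ≤ (∏ l, (N l : ℝ)) * X ^ (n * η) := by
        refine mul_le_mul_of_nonneg_right ?_ (by positivity)
        exact Finset.prod_le_prod (fun l _ => by positivity) fun l _ => h l
    _ ≤ m * X ^ (n * η) := by
        refine mul_le_mul_of_nonneg_right ?_ (by positivity)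
        exact_mod_cast hm

end ENYaux

open ENYaux in
/-- **ENY.** -/
theorem eny_thm (hENE : S_ENE) (hDCM : S_DCM) (hENF : S_ENF) : S_ENY := by
  intro c ε C0 hc hc1 hε hε1 hC0 Λ hΛ hΛ1
  obtain ⟨ζ, τ, hζ, hζ1, hτ, hτ1, hE⟩ := hENE c (ε / 4) C0 hc hc1 (by positivity) (by linarith) hC0
  obtain ⟨n, hn1, hnC, hD⟩ := hDCM Λ ζ C0 hΛ (hΛ1.trans hC0) hζ hζ1
  have hn0 : (0 : ℝ) < n := by exact_mod_cast hn1
  obtain ⟨lam, hlam0, hl1, hl2, hl3⟩ : ∃ lam : ℝ, 0 < lam ∧ 200 * n * lam ≤ τ * Λ ∧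
      100 * lam ≤ c ∧ 2 * lam ≤ Λ := by
    refine ⟨min (τ * Λ / (200 * n)) (min (c / 100) (Λ / 2)), by positivity, ?_, ?_, ?_⟩
    · have h := min_le_left (τ * Λ / (200 * n)) (min (c / 100) (Λ / 2))
      rw [le_div_iff₀ (by positivity)] at h
      linarith
    · have h := (min_le_right (τ * Λ / (200 * n)) (min (c / 100) (Λ / 2))).trans (min_le_left _ _)
      linarith
    · have h := (min_le_right (τ * Λ / (200 * n)) (min (c / 100) (Λ / 2))).trans (min_le_right _ _)
      linarith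
  obtain ⟨L, hL⟩ := hD lam hlam0
  obtain ⟨κ1, X1, hκ1, hX1, hE1⟩ := hE n L (fun k => Λ * (1 + ζ) ^ (k : ℕ)) hn1
    (fun k => ⟨by positivity, hnC k k.2⟩)
  obtain ⟨κ2, X2, hκ2, hX2, hF1⟩ := hENF c (ε / 4) hc hc1 (by positivity)
  obtain ⟨η, hη⟩ : ∃ η : ℝ, η = ε / (32 * n) := ⟨_, rfl⟩
  have hη0 : 0 < η := by rw [hη]; positivity
  have hnη : n * η = ε / 32 := by rw [hη]; field_simp
  obtain ⟨P, hP⟩ : ∃ P : ℕ, P = ⌊1 / η⌋₊ + 1 := ⟨_, rfl⟩
  refine ⟨lam, max (max κ1 κ2) (1 / lam), max (max X1 X2) (((P : ℝ) ^ (2 * n)) ^ (4 / ε)), hlam0,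
    by linarith, le_max_of_le_left (le_max_of_le_left hκ1),
    le_max_of_le_left (le_max_of_le_left hX1), ?_⟩
  intro X h0 Z T x H i F hX hκ hZ hT hw hF hrad hdf
  have hXX1 : X1 ≤ X := (le_max_left _ _).trans ((le_max_left _ _).trans hX)
  have hXX2 : X2 ≤ X := (le_max_right _ _).trans ((le_max_left _ _).trans hX)
  have hXP : ((P : ℝ) ^ (2 * n)) ^ (4 / ε) ≤ X := (le_max_right _ _).trans hX
  have hX3 : 3 ≤ X := hX1.trans hXX1
  have hX0 : 0 < X := by linarith
  have hXone : 1 ≤ X := by linarith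
  have hl : 0 < Real.log X := Real.log_pos (by linarith)
  have hκa : κ1 * Real.log X ≤ h0 :=
    (mul_le_mul_of_nonneg_right ((le_max_left _ _).trans (le_max_left _ _)) hl.le).trans hκ
  have hκb : κ2 * Real.log X ≤ h0 :=
    (mul_le_mul_of_nonneg_right ((le_max_right _ _).trans (le_max_left _ _)) hl.le).trans hκ
  have hκc : 1 / lam * Real.log X ≤ h0 :=
    (mul_le_mul_of_nonneg_right (le_max_right _ _) hl.le).trans hκ
  have hh0 : 0 < h0 := lt_of_lt_of_le (by positivity) hκa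
  obtain ⟨g, hg⟩ : ∃ g : ℝ, g = h0 / Real.log X := ⟨_, rfl⟩
  have hg0 : 0 < g := by rw [hg]; positivity
  have hgX : g * Real.log X = h0 := by rw [hg]; exact div_mul_cancel₀ _ hl.ne'
  have hglam : 1 / lam ≤ g := by rw [hg, le_div_iff₀ hl]; exact hκc
  obtain ⟨E, hE2, hdec⟩ := hL g hglam
  obtain ⟨j, k, hij, hik, hjk, hset, hs2⟩ := two_of i
  have hdc : ∀ v ∈ F, ∀ s, s ≠ i → ∃ (y : Fin n → ℕ) (r : ℕ), Dc E (H s) lam g (coord v s) y r := by
    intro v hv s hs
    obtain ⟨y, r, h1, h2, h3, h4, h5, h6, h7⟩ := hdec (coord v s) (H s) lam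
      (coord_pos (hF v hv).tri s) hlam0.le ((hF v hv).sH s hs)
      (fun p hp hpH => by rw [hg]; exact (hF v hv).ex s hs p hp hpH)
    exact ⟨y, r, h1, h2, h3, h4, h5, h6, h7⟩
  choose! y r hyr using hdc
  have hradX : ∀ v ∈ F, ∀ s, (rad (coord v s) : ℝ) ≤ X := fun v hv s =>
    le_trans (by exact_mod_cast rad_coord_le (hF v hv).tri s) (hF v hv).rad
  -- patterns
  obtain ⟨a, ha⟩ : ∃ a : ℕ × ℕ → Fin 3 → Fin n → ℕ, ∀ v s l,
      ⌊Real.log (rad (y v s l)) / (η * Real.log X)⌋₊ = a v s l := ⟨_, fun v s l => rfl⟩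
  have haP : ∀ v ∈ F, ∀ s, s ≠ i → ∀ l, a v s l < P := by
    intro v hv s hs l
    rw [← ha, hP, Nat.lt_succ_iff]
    apply Nat.floor_le_floor
    have h1 : (rad (y v s l) : ℝ) ≤ X :=
      le_trans (by exact_mod_cast (hyr v hv s hs).rad_le l) (hradX v hv s)
    have h2 : Real.log (rad (y v s l)) ≤ Real.log X :=
      Real.log_le_log (by exact_mod_cast rad_pos _) h1
    rw [div_le_div_iff₀ (by positivity) hη0]
    nlinarith
  -- the bound of one class
  obtain ⟨M, hM⟩ : ∃ M : ℝ, M = ((∏ t ∈ T, t : ℕ) : ℝ) * X ^ (ε / 4) * (X ^ (ε / 4) * Real.sqrt Z) *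
      X ^ (ε / 4) := ⟨_, rfl⟩
  have hM0 : 0 ≤ M := by rw [hM]; positivity
  have main : ∀ α β : Fin n → ℕ, ((F.filter (fun v => (a v j, a v k) = (α, β))).card : ℝ) ≤ M := by
    intro α β
    set F' := F.filter (fun v => (a v j, a v k) = (α, β)) with hF'
    have sF : ∀ v ∈ F', v ∈ F ∧ a v j = α ∧ a v k = β := by
      intro v hv
      have h := mem_filter.1 hv
      exact ⟨h.1, (Prod.ext_iff.1 h.2).1, (Prod.ext_iff.1 h.2).2⟩
    rcases F'.eq_empty_or_nonempty with he | ⟨v0, hv0⟩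
    · rw [he]
      simpa using hM0
    obtain ⟨A, hA⟩ : ∃ A : Fin n → ℝ, ∀ l, A l = X ^ (((α l : ℝ) + 1) * η) := ⟨_, fun l => rfl⟩
    obtain ⟨B, hB⟩ : ∃ B : Fin n → ℝ, ∀ l, B l = X ^ (((β l : ℝ) + 1) * η) := ⟨_, fun l => rfl⟩
    have hpA : ∏ l, A l ≤ rad (coord v0 j) * X ^ (ε / 32) := by
      rw [← hnη, Finset.prod_congr rfl fun l _ => hA l]
      refine prod_size hX3 (N := fun l => rad (y v0 j l)) (fun l => ?_)
        (hyr v0 (sF v0 hv0).1 j hij).rd
      refine (size hX3 hη0 (rad_pos _) (a := α l) ?_).2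
      rw [ha, (sF v0 hv0).2.1]
    have hpB : ∏ l, B l ≤ rad (coord v0 k) * X ^ (ε / 32) := by
      rw [← hnη, Finset.prod_congr rfl fun l _ => hB l]
      refine prod_size hX3 (N := fun l => rad (y v0 k l)) (fun l => ?_)
        (hyr v0 (sF v0 hv0).1 k hik).rd
      refine (size hX3 hη0 (rad_pos _) (a := β l) ?_).2
      rw [ha, (sF v0 hv0).2.2]
    have hX32 : X ^ (ε / 32) ≤ X := by
      calc X ^ (ε / 32) ≤ X ^ (1 : ℝ) := Real.rpow_le_rpow_of_exponent_le hXone (by linarith)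
        _ = X := Real.rpow_one X
    have hpA2 : ∏ l, A l ≤ X ^ 2 := by
      calc ∏ l, A l ≤ rad (coord v0 j) * X ^ (ε / 32) := hpA
        _ ≤ X * X := mul_le_mul (hradX v0 (sF v0 hv0).1 j) hX32 (by positivity) hX0.le
        _ = X ^ 2 := by ring
    have hpB2 : ∏ l, B l ≤ X ^ 2 := by
      calc ∏ l, B l ≤ rad (coord v0 k) * X ^ (ε / 32) := hpB
        _ ≤ X * X := mul_le_mul (hradX v0 (sF v0 hv0).1 k) hX32 (by positivity) hX0.le
        _ = X ^ 2 := by ring
    have hpAB : (∏ l, A l) * ∏ l, B l ≤ (X ^ (ε / 4)) ^ 2 * Z := by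
      have hz : (rad (coord v0 j) : ℝ) * rad (coord v0 k) ≤ Z := by
        have h := hrad v0 (sF v0 hv0).1
        rw [hset, Finset.prod_pair hjk] at h
        exact h
      have hB0 : 0 ≤ ∏ l, B l := Finset.prod_nonneg fun l _ => by rw [hB]; positivity
      calc (∏ l, A l) * ∏ l, B l
          ≤ (rad (coord v0 j) * X ^ (ε / 32)) * (rad (coord v0 k) * X ^ (ε / 32)) :=
            mul_le_mul hpA hpB hB0 (by positivity)
        _ = (X ^ (ε / 32)) ^ 2 * (rad (coord v0 j) * rad (coord v0 k)) := by ring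
        _ ≤ (X ^ (ε / 4)) ^ 2 * Z := by
            refine mul_le_mul ?_ hz (by positivity) (by positivity)
            refine pow_le_pow_left₀ (by positivity) ?_ 2
            exact Real.rpow_le_rpow_of_exponent_le hXone (by linarith)
    -- the edges
    set W := F'.image (fun v => (y v j, y v k)) with hW
    have hqlog : ∑ t ∈ T, (x t : ℝ) * Real.log t ≤ 2 * h0 := by
      have hv := hF v0 (sF v0 hv0).1
      calc ∑ t ∈ T, (x t : ℝ) * Real.log t ≤ kl (coord v0 i).primeFactors (coord v0 i) :=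
            kl_i hv.tri hT hv.dT (fun t ht => by
              rw [Nat.mem_primeFactors]
              exact ⟨(hT t ht).1, (dvd_pow_self t (by have := (hT t ht).2; omega)).trans
                (hv.dT t ht), (coord_pos hv.tri i).ne'⟩)
        _ = Real.log (coord v0 i) := (log_eq (coord_pos hv.tri i)).symm
        _ ≤ hh v0 := by
            unfold hh
            apply Real.log_le_log
            · exact_mod_cast coord_pos hv.tri i
            · exact_mod_cast coord_le v0 i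
        _ ≤ 2 * h0 := hv.up
    have hcop : ∀ v ∈ F, ∀ s, s ≠ i → ∀ l, (y v s l).Coprime (∏ t ∈ T, t ^ x t) := by
      intro v hv s hs l
      have d := hyr v hv s hs
      have h1 : y v s l ∣ coord v s := by
        conv_rhs => rw [d.eq]
        exact ((Finset.dvd_prod_of_mem _ (mem_univ l)).trans (Dvd.intro_left _ rfl)).trans
          (Dvd.intro _ rfl)
      exact Nat.Coprime.coprime_dvd_left h1
        (Nat.Coprime.coprime_dvd_right (prod_pow_dvd hT (hF v hv).dT) (coord_cop (hF v hv).tri hs))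
    have hWcard : (W.card : ℝ) ≤ ((∏ t ∈ T, t : ℕ) : ℝ) * X ^ (ε / 4) *
        Real.sqrt ((∏ l, A l) * ∏ l, B l) := by
      refine hE1 X h0 (8 * lam * h0) T x E A B W hXX1 hκa hT hw hqlog ?_ ?_ hpA2 hpB2
        (by positivity) ?_ ?_ ?_ ?_
      · intro l
        refine ⟨(hE2 l).1, fun b hb => ?_⟩
        rw [← hg]
        exact (hE2 l).2 b hb
      · intro l
        rw [hA, hB]
        exact ⟨Real.one_le_rpow hXone (by positivity), Real.one_le_rpow hXone (by positivity)⟩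
      · intro l
        have h1 : (1 : ℝ) ≤ (1 + ζ) ^ (l : ℕ) := one_le_pow₀ (by linarith)
        have h2 : τ * Λ ≤ τ * (Λ * (1 + ζ) ^ (l : ℕ)) := by
          refine mul_le_mul_of_nonneg_left ?_ hτ.le
          nlinarith
        have h3 : 48 * (n * lam) ≤ τ * (Λ * (1 + ζ) ^ (l : ℕ)) := by
          have : 0 ≤ (n : ℝ) * lam := by positivity
          linarith
        calc 6 * (n : ℝ) * (8 * lam * h0) = 48 * (n * lam) * h0 := by ring
          _ ≤ _ := mul_le_mul_of_nonneg_right h3 hh0.le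
      · intro w hw' l
        obtain ⟨v, hv, rfl⟩ := mem_image.1 hw'
        have hvF := (sF v hv).1
        refine ⟨?_, ?_⟩
        · refine mem_Cls ((hyr v hvF j hij).yE l).1 (hcop v hvF j hij l) ?_
            ((hyr v hvF j hij).yE l).2
          rw [hA]
          refine (size hX3 hη0 (rad_pos _) (a := α l) ?_).1
          rw [ha, (sF v hv).2.1]
        · refine mem_Cls ((hyr v hvF k hik).yE l).1 (hcop v hvF k hik l) ?_
            ((hyr v hvF k hik).yE l).2
          rw [hB]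
          refine (size hX3 hη0 (rad_pos _) (a := β l) ?_).1
          rw [ha, (sF v hv).2.2]
      · intro y1 y1' z hz hz'
        obtain ⟨v, hv, hv2⟩ := mem_image.1 hz
        obtain ⟨v', hv', hv2'⟩ := mem_image.1 hz'
        obtain ⟨e1, e2⟩ := Prod.ext_iff.1 hv2
        obtain ⟨e1', e2'⟩ := Prod.ext_iff.1 hv2'
        simp only at e1 e2 e1' e2'
        have hvF := (sF v hv).1
        have hvF' := (sF v' hv').1
        have d1 := hyr v hvF j hij
        have d2 := hyr v' hvF' j hij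
        have d3 := hyr v hvF k hik
        have d4 := hyr v' hvF' k hik
        rw [e1] at d1
        rw [e1'] at d2
        rw [e2] at d3
        rw [e2'] at d4
        refine edge hij hik hjk hT (hF v hvF) (hF v' hvF') hlam0.le hg0.le hgX d1 d2 d3 d4 ?_
        intro w w' hw1 hw2 s hs
        refine hdf w ?_ w' ?_ s hs
        · rcases hw1 with rfl | rfl
          · exact hvF
          · exact hvF'
        · rcases hw2 with rfl | rfl
          · exact hvF
          · exact hvF'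
      · intro z y1 y1' hz hz'
        obtain ⟨v, hv, hv2⟩ := mem_image.1 hz
        obtain ⟨v', hv', hv2'⟩ := mem_image.1 hz'
        obtain ⟨e1, e2⟩ := Prod.ext_iff.1 hv2
        obtain ⟨e1', e2'⟩ := Prod.ext_iff.1 hv2'
        simp only at e1 e2 e1' e2'
        have hvF := (sF v hv).1
        have hvF' := (sF v' hv').1
        have d1 := hyr v hvF j hij
        have d2 := hyr v' hvF' j hij
        have d3 := hyr v hvF k hik
        have d4 := hyr v' hvF' k hik
        rw [e1] at d1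
        rw [e1'] at d2
        rw [e2] at d3
        rw [e2'] at d4
        refine edge hik hij hjk.symm hT (hF v hvF) (hF v' hvF') hlam0.le hg0.le hgX d3 d4 d1 d2 ?_
        intro w w' hw1 hw2 s hs
        refine hdf w ?_ w' ?_ s hs
        · rcases hw1 with rfl | rfl
          · exact hvF
          · exact hvF'
        · rcases hw2 with rfl | rfl
          · exact hvF
          · exact hvF'
    -- the fibres
    have hfib : ∀ w ∈ W, (F'.filter (fun v => (y v j, y v k) = w)).card ≤ ⌊X ^ (ε / 4)⌋₊ := by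
      intro w _
      refine Nat.le_floor ?_
      obtain ⟨K, hK⟩ : ∃ K : Finset ℕ, K = T ∪ H j ∪ H k ∪
        (univ.biUnion fun l => (w.1 l).primeFactors) ∪
        (univ.biUnion fun l => (w.2 l).primeFactors) := ⟨_, rfl⟩
      refine hF1 X h0 K i _ hXX2 hκb ?_
      intro v hv
      obtain ⟨hv1, hv2⟩ := mem_filter.1 hv
      have hvF := (sF v hv1).1
      have f := hF v hvF
      obtain ⟨e1, e2⟩ := Prod.ext_iff.1 hv2
      simp only at e1 e2
      have d1 := hyr v hvF j hij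
      have d2 := hyr v hvF k hik
      rw [e1] at d1
      rw [e2] at d2
      have mono : ∀ s, (coord v s).primeFactors ⊆ (nn v).primeFactors := fun s =>
        Nat.primeFactors_mono (coord_dvd_nn v s) (nn_pos f.tri).ne'
      refine ⟨f.tri, f.rad, f.lo, f.up, ?_, ?_, ?_⟩
      · rw [hK]
        refine union_subset (union_subset (union_subset (union_subset ?_ ?_) ?_) ?_) ?_
        · intro t ht
          apply mono i
          rw [Nat.mem_primeFactors]
          exact ⟨(hT t ht).1, (dvd_pow_self t (by have := (hT t ht).2; omega)).trans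
            (f.dT t ht), (coord_pos f.tri i).ne'⟩
        · exact (f.sH j hij).trans (mono j)
        · exact (f.sH k hik).trans (mono k)
        · rw [biUnion_subset]
          intro l _
          exact ((d1.sub l).trans sdiff_subset).trans (mono j)
        · rw [biUnion_subset]
          intro l _
          exact ((d2.sub l).trans sdiff_subset).trans (mono k)
      · refine hw.trans (kl_i f.tri hT f.dT ?_)
        rw [hK]
        intro t ht
        simp only [mem_union]
        exact Or.inl (Or.inl (Or.inl (Or.inl ht)))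
      · intro s hs
        have hmass : ∀ p ∈ (coord v s).primeFactors, p ∉ K →
            ((coord v s).factorization p : ℝ) ≤ lam * g := by
          intro p hp hpK
          rw [hK] at hpK
          simp only [mem_union, mem_biUnion, mem_univ, true_and, not_or, not_exists] at hpK
          rcases hs2 s hs with rfl | rfl
          · exact d1.rest p hp hpK.1.1.1.2 hpK.1.2
          · exact d2.rest p hp hpK.1.1.2 hpK.2
        have h1 := kl_s (coord_pos f.tri s) (by positivity) hmass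
        have h2 : Real.log (rad (coord v s)) ≤ Real.log X :=
          Real.log_le_log (by exact_mod_cast rad_pos _) (hradX v hvF s)
        have h3 : lam * g * Real.log (rad (coord v s)) ≤ lam * g * Real.log X :=
          mul_le_mul_of_nonneg_left h2 (by positivity)
        have h4 : lam * g * Real.log X = lam * h0 := by rw [mul_assoc, hgX]
        have h5 : lam * h0 ≤ c / 16 * h0 := mul_le_mul_of_nonneg_right (by linarith) hh0.le
        linarith
    have hcard : (F'.card : ℝ) ≤ X ^ (ε / 4) * W.card := by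
      have h1 := Finset.card_le_mul_card_image (f := fun v => (y v j, y v k)) F' _ hfib
      calc (F'.card : ℝ) ≤ ((⌊X ^ (ε / 4)⌋₊ * W.card : ℕ) : ℝ) := by exact_mod_cast h1
        _ = (⌊X ^ (ε / 4)⌋₊ : ℝ) * W.card := by push_cast; rfl
        _ ≤ X ^ (ε / 4) * W.card :=
            mul_le_mul_of_nonneg_right (Nat.floor_le (by positivity)) (by positivity)
    have hsq : Real.sqrt ((∏ l, A l) * ∏ l, B l) ≤ X ^ (ε / 4) * Real.sqrt Z := by
      calc Real.sqrt ((∏ l, A l) * ∏ l, B l) ≤ Real.sqrt ((X ^ (ε / 4)) ^ 2 * Z) :=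
            Real.sqrt_le_sqrt hpAB
        _ = X ^ (ε / 4) * Real.sqrt Z := by
            rw [Real.sqrt_mul (by positivity), Real.sqrt_sq (by positivity)]
    calc (F'.card : ℝ) ≤ X ^ (ε / 4) * W.card := hcard
      _ ≤ X ^ (ε / 4) * (((∏ t ∈ T, t : ℕ) : ℝ) * X ^ (ε / 4) *
            (X ^ (ε / 4) * Real.sqrt Z)) := by
          refine mul_le_mul_of_nonneg_left (hWcard.trans ?_) (by positivity)
          exact mul_le_mul_of_nonneg_left hsq (by positivity)
      _ = M := by rw [hM]; ring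
  -- all the classes
  have hmap : ∀ v ∈ F, (a v j, a v k) ∈ (Fintype.piFinset fun _ : Fin n => range P) ×ˢ
      (Fintype.piFinset fun _ : Fin n => range P) := by
    intro v hv
    rw [mem_product, Fintype.mem_piFinset, Fintype.mem_piFinset]
    exact ⟨fun l => mem_range.2 (haP v hv j hij l), fun l => mem_range.2 (haP v hv k hik l)⟩
  have hcount := Finset.card_le_mul_card_image_of_maps_to hmap ⌊M⌋₊ (fun b _ => by
    obtain ⟨α, β⟩ := b
    exact Nat.le_floor (main α β))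
  have hcp : ((Fintype.piFinset fun _ : Fin n => range P) ×ˢ
      (Fintype.piFinset fun _ : Fin n => range P)).card = P ^ (2 * n) := by
    rw [card_product, Fintype.card_piFinset, Finset.prod_const, card_range, Finset.card_univ,
      Fintype.card_fin, ← pow_add]
    congr 1
    ring
  rw [hcp] at hcount
  have hP4 : (P : ℝ) ^ (2 * n) ≤ X ^ (ε / 4) := by
    have h1 : (((P : ℝ) ^ (2 * n)) ^ (4 / ε)) ^ (ε / 4) ≤ X ^ (ε / 4) :=
      Real.rpow_le_rpow (by positivity) hXP (by positivity)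
    rwa [← Real.rpow_mul (by positivity), show 4 / ε * (ε / 4) = 1 by field_simp,
      Real.rpow_one] at h1
  have hX4 : X ^ ε = X ^ (ε / 4) * X ^ (ε / 4) * X ^ (ε / 4) * X ^ (ε / 4) := by
    rw [← Real.rpow_add hX0, ← Real.rpow_add hX0, ← Real.rpow_add hX0]
    congr 1
    ring
  calc (F.card : ℝ) ≤ ((⌊M⌋₊ * P ^ (2 * n) : ℕ) : ℝ) := by exact_mod_cast hcount
    _ = (⌊M⌋₊ : ℝ) * (P : ℝ) ^ (2 * n) := by push_cast; rfl
    _ ≤ M * X ^ (ε / 4) := mul_le_mul (Nat.floor_le hM0) hP4 (by positivity) hM0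
    _ = ((∏ t ∈ T, t : ℕ) : ℝ) * X ^ ε * Real.sqrt Z := by rw [hM, hX4]; ring

end Pool.EXC
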